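import Pool.Agent.Lib.MP_fa837f_gt.TS.Iface

/-!
Module SMOOTH of the project TS: log-concavity of the integral for jets.
-/

set_option autoImplicit false

open MeasureTheory Set Filter Topology

namespace Pool.Agent.Lib.MP_fa837f_gt.TS.H32

/-- The jet of `f θ ρ - lam * θ`. -/
noncomputable def tilt (J : Jet) (lam : ℝ) : Jet where
  f := fun θ ρ => J.f θ ρ - lam * θ
  p := J.p
  a := fun θ ρ => J.a θ ρ - lam
  P := J.P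
  m := J.m
  k := J.k
  c := J.c
  hfp := fun θ ρ => (J.hfp θ ρ).sub_const (lam * θ)
  hfa := fun θ ρ => by
    have h := (J.hfa θ ρ).fun_sub ((hasDerivAt_id' θ).const_mul lam)
    rw [mul_one] at h
    exact h
  hpP := J.hpP
  hpm := J.hpm
  ham := fun θ ρ => (J.ham θ ρ).sub_const lam
  hak := fun θ ρ => (J.hak θ ρ).sub_const lam
  hmc := J.hmc
  hkc := J.hkc
  cf := J.cf.sub (continuous_const.mul continuous_fst)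
  cp := J.cp
  ca := J.ca.sub continuous_const
  cP := J.cP
  cm := J.cm
  ck := J.ck
  cc := J.cc
  bdd := by
    obtain ⟨K, hK⟩ := J.bdd
    refine ⟨K + |lam|, fun θ ρ => ?_⟩
    obtain ⟨h1, h2, h3, h4, h5⟩ := hK θ ρ
    have hl := abs_nonneg lam
    refine ⟨?_, by linarith, by linarith, by linarith, by linarith⟩
    exact (abs_sub _ _).trans (by linarith)
  hP := J.hP
  hk := J.hk
  hm := J.hm

theorem ee_tilt (J₁ J₂ : Jet) (lam θ ρ : ℝ) :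
    EE (tilt J₁ lam) J₂ θ ρ = Real.exp (-(lam * θ)) * EE J₁ J₂ θ ρ := by
  unfold EE
  rw [← Real.exp_add]
  congr 1
  show J₁.f θ ρ - lam * θ + J₂.f θ ρ - ρ = _
  ring

theorem f1_tilt (J₁ J₂ : Jet) (lam θ ρ : ℝ) :
    F1 (tilt J₁ lam) J₂ θ ρ = Real.exp (-(lam * θ)) * (F1 J₁ J₂ θ ρ - lam * F0 J₁ J₂ θ ρ) := by
  unfold F1 F0
  rw [ee_tilt]
  show Real.exp (-(lam * θ)) * EE J₁ J₂ θ ρ * (J₁.p θ ρ * J₂.p θ ρ * (J₁.a θ ρ - lam + J₂.a θ ρ) +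
    J₁.m θ ρ * J₂.p θ ρ + J₁.p θ ρ * J₂.m θ ρ) = _
  ring

theorem f2_tilt (J₁ J₂ : Jet) (lam θ ρ : ℝ) :
    F2 (tilt J₁ lam) J₂ θ ρ = Real.exp (-(lam * θ)) *
      (F2 J₁ J₂ θ ρ - 2 * lam * F1 J₁ J₂ θ ρ + lam ^ 2 * F0 J₁ J₂ θ ρ) := by
  unfold F2 F1 F0
  rw [ee_tilt]
  show Real.exp (-(lam * θ)) * EE J₁ J₂ θ ρ *
    (J₁.p θ ρ * J₂.p θ ρ * (J₁.a θ ρ - lam + J₂.a θ ρ) ^ 2 +
    2 * (J₁.a θ ρ - lam + J₂.a θ ρ) * (J₁.m θ ρ * J₂.p θ ρ + J₁.p θ ρ * J₂.m θ ρ) +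
    J₁.p θ ρ * J₂.p θ ρ * (J₁.k θ ρ + J₂.k θ ρ) + J₁.c θ ρ * J₂.p θ ρ +
    2 * (J₁.m θ ρ * J₂.m θ ρ) + J₁.p θ ρ * J₂.c θ ρ) = _
  ring

theorem f0_pos (J₁ J₂ : Jet) (e : ℝ) (he : 0 < e) (h1 : ∀ θ ρ, e ≤ J₁.p θ ρ ∧ J₁.p θ ρ ≤ 1)
    (h2 : ∀ θ ρ, e ≤ J₂.p θ ρ ∧ J₂.p θ ρ ≤ 1) (θ ρ : ℝ) : 0 < F0 J₁ J₂ θ ρ := by
  unfold F0 EE
  have a1 := (h1 θ ρ).1
  have a2 := (h2 θ ρ).1
  have b1 : 0 < J₁.p θ ρ := by linarith
  have b2 : 0 < J₂.p θ ρ := by linarith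
  positivity

/-- SMOOTH. -/
theorem smooth (hdiff : DiffStatement) (hsm0 : Sm0Statement) : SmoothStatement := by
  intro J₁ J₂ e he h1 h2 hco
  have g1 : ∀ θ ρ, 0 ≤ J₁.p θ ρ ∧ J₁.p θ ρ ≤ 1 := fun θ ρ =>
    ⟨he.le.trans (h1 θ ρ).1, (h1 θ ρ).2⟩
  have g2 : ∀ θ ρ, 0 ≤ J₂.p θ ρ ∧ J₂.p θ ρ ≤ 1 := fun θ ρ =>
    ⟨he.le.trans (h2 θ ρ).1, (h2 θ ρ).2⟩
  have hd := hdiff J₁ J₂ g1 g2 hco
  have hpos : ∀ θ, 0 < ∫ ρ, F0 J₁ J₂ θ ρ := by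
    intro θ
    rw [integral_pos_iff_support_of_nonneg (fun ρ => (f0_pos J₁ J₂ e he h1 h2 θ ρ).le) (hd θ).1]
    have hs : Function.support (F0 J₁ J₂ θ) = univ := by
      ext ρ
      simp only [Function.mem_support, mem_univ, iff_true]
      exact (f0_pos J₁ J₂ e he h1 h2 θ ρ).ne'
    rw [hs]
    simp
  refine ⟨hpos, ?_⟩
  -- the key inequality
  have key : ∀ θ, (∫ ρ, F2 J₁ J₂ θ ρ) * (∫ ρ, F0 J₁ J₂ θ ρ) ≤ (∫ ρ, F1 J₁ J₂ θ ρ) ^ 2 := by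
    intro θ
    obtain ⟨i0, i1, i2, -, -⟩ := hd θ
    have hC := hpos θ
    set C0 := ∫ ρ, F0 J₁ J₂ θ ρ with hC0
    set C1 := ∫ ρ, F1 J₁ J₂ θ ρ with hC1
    set C2 := ∫ ρ, F2 J₁ J₂ θ ρ with hC2
    set lam := C1 / C0 with hlam
    have hlC : lam * C0 = C1 := by
      rw [hlam]; field_simp
    have hco' : ∀ θ', Coer fun ρ => (tilt J₁ lam).f θ' ρ + J₂.f θ' ρ - ρ := by
      intro θ'
      have e1 : (fun ρ => (tilt J₁ lam).f θ' ρ + J₂.f θ' ρ - ρ) =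
          fun ρ => -(lam * θ') + (J₁.f θ' ρ + J₂.f θ' ρ - ρ) := by
        funext ρ
        show J₁.f θ' ρ - lam * θ' + J₂.f θ' ρ - ρ = _
        ring
      rw [e1]
      exact ⟨tendsto_atBot_add_const_left _ _ (hco θ').1,
        tendsto_atBot_add_const_left _ _ (hco θ').2⟩
    have hz : ∫ ρ, F1 (tilt J₁ lam) J₂ θ ρ = 0 := by
      have e1 : (fun ρ => F1 (tilt J₁ lam) J₂ θ ρ) =
          fun ρ => Real.exp (-(lam * θ)) * (F1 J₁ J₂ θ ρ - lam * F0 J₁ J₂ θ ρ) :=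
        funext fun ρ => f1_tilt J₁ J₂ lam θ ρ
      rw [e1, integral_const_mul, integral_sub i1 (i0.const_mul lam), integral_const_mul,
        ← hC0, ← hC1, hlC]
      simp
    have hle := hsm0 (tilt J₁ lam) J₂ e he h1 h2 hco' θ hz
    have e2 : (fun ρ => F2 (tilt J₁ lam) J₂ θ ρ) =
        fun ρ => Real.exp (-(lam * θ)) *
          (F2 J₁ J₂ θ ρ - 2 * lam * F1 J₁ J₂ θ ρ + lam ^ 2 * F0 J₁ J₂ θ ρ) :=
      funext fun ρ => f2_tilt J₁ J₂ lam θ ρ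
    have j1 : Integrable (fun ρ => 2 * lam * F1 J₁ J₂ θ ρ) := i1.const_mul (2 * lam)
    have j0 : Integrable (fun ρ => lam ^ 2 * F0 J₁ J₂ θ ρ) := i0.const_mul (lam ^ 2)
    have j2 : Integrable (fun ρ => F2 J₁ J₂ θ ρ - 2 * lam * F1 J₁ J₂ θ ρ) := i2.sub j1
    rw [e2, integral_const_mul, integral_add j2 j0, integral_sub i2 j1, integral_const_mul,
      integral_const_mul, ← hC0, ← hC1, ← hC2] at hle
    have hpe := Real.exp_pos (-(lam * θ))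
    have h3 : C2 - 2 * lam * C1 + lam ^ 2 * C0 ≤ 0 := by
      by_contra hcon
      push Not at hcon
      have := mul_pos hpe hcon
      linarith
    have h4 : (C2 - 2 * lam * C1 + lam ^ 2 * C0) * C0 = C2 * C0 - C1 ^ 2 := by
      have : (C2 - 2 * lam * C1 + lam ^ 2 * C0) * C0 =
          C2 * C0 - 2 * (lam * C0) * C1 + (lam * C0) ^ 2 := by ring
      rw [this, hlC]; ring
    have h5 := mul_nonpos_of_nonpos_of_nonneg h3 hC.le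
    rw [h4] at h5
    linarith
  have hder : ∀ θ, HasDerivAt (fun x => Real.log (∫ ρ, F0 J₁ J₂ x ρ))
      ((∫ ρ, F1 J₁ J₂ θ ρ) / ∫ ρ, F0 J₁ J₂ θ ρ) θ := fun θ =>
    ((hd θ).2.2.2.1).log (hpos θ).ne'
  have hderiv : deriv (fun x => Real.log (∫ ρ, F0 J₁ J₂ x ρ)) =
      fun θ => (∫ ρ, F1 J₁ J₂ θ ρ) / ∫ ρ, F0 J₁ J₂ θ ρ := funext fun θ => (hder θ).deriv
  have hder2 : ∀ θ, HasDerivAt (fun x => (∫ ρ, F1 J₁ J₂ x ρ) / ∫ ρ, F0 J₁ J₂ x ρ)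
      (((∫ ρ, F2 J₁ J₂ θ ρ) * (∫ ρ, F0 J₁ J₂ θ ρ) - (∫ ρ, F1 J₁ J₂ θ ρ) * (∫ ρ, F1 J₁ J₂ θ ρ)) /
        (∫ ρ, F0 J₁ J₂ θ ρ) ^ 2) θ := fun θ =>
    ((hd θ).2.2.2.2).div ((hd θ).2.2.2.1) (hpos θ).ne'
  refine concaveOn_univ_of_deriv2_nonpos (fun θ => (hder θ).differentiableAt) ?_ ?_
  · rw [hderiv]
    exact fun θ => (hder2 θ).differentiableAt
  · intro θ
    show deriv (deriv fun x => Real.log (∫ ρ, F0 J₁ J₂ x ρ)) θ ≤ 0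
    rw [hderiv, (hder2 θ).deriv]
    refine div_nonpos_of_nonpos_of_nonneg ?_ (sq_nonneg _)
    have := key θ
    nlinarith

end Pool.Agent.Lib.MP_fa837f_gt.TS.H32
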